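import Pool.Agent.Lib_MP_70e04f_thin.TFinal

/-!
The SHGH conjecture for all plane linear systems in standard form which are outside of a strip
around the light cone; the width of the strip is at most the square of the tenth multiplicity, and
it becomes arbitrarily small, relative to this square, with the number of points or the degree.
-/

namespace Pool.Agent.Results.MP_70e04f_ag.ThinStrip

/-- For general points `p i` of the affine plane the space of curves of degree at most `d` with
multiplicity at least `mult i` at `p i` has the expected dimension `max 0 χ`. -/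
def Expected {n : ℕ} (d : ℕ) (mult : Fin n → ℕ) : Prop :=
  ∃ g : MvPolynomial (Fin n × Fin 2) ℂ, g ≠ 0 ∧
    ∀ p : Fin n → Fin 2 → ℂ,
      MvPolynomial.eval (fun q : Fin n × Fin 2 => p q.1 q.2) g ≠ 0 →
        ((2 : ℤ) * ((Module.finrank ℂ
            ↥(MvPolynomial.restrictTotalDegree (Fin 2) ℂ d ⊓
              ⨅ i : Fin n, Submodule.restrictScalars ℂ
                ((RingHom.ker (MvPolynomial.eval (p i)) :
                    Ideal (MvPolynomial (Fin 2) ℂ)) ^ mult i)) : ℕ) : ℤ)
          = max 0 (((d : ℤ) + 1) * ((d : ℤ) + 2) -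
              ∑ i, (mult i : ℤ) * ((mult i : ℤ) + 1)))

/-- Let `α 0, ..., α 9` be ten indices with decreasing multiplicities `m_1 ≥ ... ≥ m_10 ≥ 2`, let
all other multiplicities be at most `m_10`, and suppose that the system is in standard form, that
is `m_1 + m_2 + m_3 ≤ d`. The system has the expected dimension in degree `d`, and in all degrees
`D ≤ d` if `(d + 1) (d + 2) ≤ ∑ mult i (mult i + 1)`, in each of the following two cases.
(1) `N = (d + 3) ^ 2 - ∑_{mult i ≥ 2} (mult i + 1) ^ 2` is positive and, with `X = m_10 + 1` and `S` the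
sum of the `(mult i + 1) ^ 2` over the `i ≠ α 0, ..., α 8` with `mult i ≥ 2`, one has `X ^ 2 < N` or
`100000 X ^ 4 ≤ N S` or `1000000 X ^ 5 ≤ N ^ 2 (d + 3)`.
(2) `N = ∑ mult i ^ 2 - d ^ 2` is positive and, with `X = m_10` and `S` the sum of the `mult i ^ 2` over
the `i ≠ α 0, ..., α 8`, one has `X ^ 2 ≤ N` or `100000 X ^ 4 ≤ N S` or
`1000000 X ^ 5 ≤ N ^ 2 d`. -/
theorem result :
    ∀ (n d D N : ℕ) (mult : Fin n → ℕ) (α : Fin 10 → Fin n),
      Function.Injective α → Antitone (fun j => mult (α j)) →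
      2 ≤ mult (α 9) → (∀ i, i ∉ Set.range α → mult i ≤ mult (α 9)) →
      mult (α 0) + mult (α 1) + mult (α 2) ≤ d → 0 < N →
      ((∑ i with 2 ≤ mult i, (mult i + 1) ^ 2 + N = (d + 3) ^ 2 ∧
          ((mult (α 9) + 1) ^ 2 < N ∨
            100000 * (mult (α 9) + 1) ^ 4 ≤
              N * ∑ i with 2 ≤ mult i ∧ ∀ j : Fin 9, i ≠ α j.castSucc, (mult i + 1) ^ 2 ∨
            1000000 * (mult (α 9) + 1) ^ 5 ≤ N ^ 2 * (d + 3))) ∨
        (∑ i, mult i ^ 2 = d ^ 2 + N ∧
          (mult (α 9) ^ 2 ≤ N ∨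
            100000 * mult (α 9) ^ 4 ≤
              N * ∑ i with ∀ j : Fin 9, i ≠ α j.castSucc, mult i ^ 2 ∨
            1000000 * mult (α 9) ^ 5 ≤ N ^ 2 * d))) →
      (D = d ∨ D ≤ d ∧ (d + 1) * (d + 2) ≤ ∑ i, mult i * (mult i + 1)) →
      Expected D mult :=
  fun n d D N mult α hα hanti h2 hother hstd hN hbig hD =>
    Pool.MP_70e04f_ag.Strip.gen_thin n d D N mult α hα hanti h2 hother hstd hN hbig hD

end Pool.Agent.Results.MP_70e04f_ag.ThinStrip
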